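import Pool.Agent.Helper79.CV.Enc
import Pool.Agent.Helper91.TY.Swap

/-!
MP_8ee768_co, project TH-Y', stage TB1 (tables of the links with one given sub-link), the list side.

A link `D` of a light vertex, with the sub-link `T` at the point 11 given, is determined by the family
of its blocks inside `{0, .., 10}`; its code `e` (330 bits) satisfies `Ent T c e`: above every triple
(code `t < 165`) the number of blocks is odd iff the triple is not in `T`, and there are at most `c`
blocks. `vlist` checks that the fields of a packed list are distinct numbers with this property, and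
`complete` turns a bound for the number of all such `e` into completeness of the list.
-/

set_option autoImplicit false

namespace Pool.Agent.Helper69.TY

open Pool.Agent.Helper63.SIMD
open Pool.Agent.Helper79.CV (L)
open Pool.Agent.Helper91.TY (testBit_fld testBit_mul_rep)

/-- evaluation of the argument first -/
def force (n : ℕ) (f : ℕ → Bool) : Bool := Nat.rec (f 0) (fun k _ => f (Nat.succ k)) n

theorem force_eq (n : ℕ) (f : ℕ → Bool) : force n f = f n := by cases n <;> rfl

/-- the positions of the members of a list of masks which contain the mask `m` -/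
def above (m : ℕ) : ℕ → List ℕ → List ℕ
  | _, [] => []
  | i, b :: l => cond (Nat.beq (Nat.land m b) m) (i :: above m (i + 1) l) (above m (i + 1) l)

theorem mem_above {m : ℕ} (l : List ℕ) : ∀ (i q : ℕ), q ∈ above m i l ↔
    ∃ h : q - i < l.length, i ≤ q ∧ m &&& l[q - i] = m := by
  induction l with
  | nil => intro i q; simp [above]
  | cons b l ih =>
    intro i q
    have key : q ∈ above m (i + 1) l ↔ i + 1 ≤ q ∧ ∃ h : q - i < (b :: l).length,
        m &&& (b :: l)[q - i] = m := by
      rw [ih]
      constructor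
      · rintro ⟨h, h1, h2⟩
        refine ⟨h1, by simp only [List.length_cons]; omega, ?_⟩
        have e : q - i = (q - (i + 1)) + 1 := by omega
        simp only [e, List.getElem_cons_succ]
        exact h2
      · rintro ⟨h1, h, h2⟩
        have e : q - i = (q - (i + 1)) + 1 := by omega
        refine ⟨by simp only [List.length_cons] at h; omega, h1, ?_⟩
        simp only [e, List.getElem_cons_succ] at h2
        exact h2
    unfold above
    by_cases hb : m &&& b = m
    · have e1 : Nat.beq (Nat.land m b) m = true := by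
        have h0 : Nat.land m b = m := hb
        rw [h0]
        exact Nat.beq_refl m
      rw [e1, cond_true, List.mem_cons, key]
      constructor
      · rintro (rfl | ⟨h1, h, h2⟩)
        · exact ⟨by simp, le_rfl, by simpa using hb⟩
        · exact ⟨h, by omega, h2⟩
      · rintro ⟨h, h1, h2⟩
        by_cases hq : q = i
        · exact Or.inl hq
        · exact Or.inr ⟨by omega, h, h2⟩
    · have e1 : Nat.beq (Nat.land m b) m = false := by
        rw [← Bool.not_eq_true]
        intro h
        exact hb (Nat.eq_of_beq_eq_true h)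
      rw [e1, cond_false, key]
      constructor
      · rintro ⟨h1, h, h2⟩
        exact ⟨h, by omega, h2⟩
      · rintro ⟨h, h1, h2⟩
        refine ⟨?_, h, h2⟩
        by_contra hq
        have e : q = i := by omega
        subst e
        simp only [Nat.sub_self, List.getElem_cons_zero] at h2
        exact hb h2

/-- xor of the copies of `X` shifted by the members of the list -/
def xsh (X : ℕ) : List ℕ → ℕ
  | [] => 0
  | q :: l => Nat.xor (Nat.shiftRight X q) (xsh X l)

/-- parity of the bits of `e` at the members of the list -/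
def xb (e : ℕ) : List ℕ → Bool
  | [] => false
  | q :: l => xor (e.testBit q) (xb e l)

theorem testBit_xsh (X j : ℕ) (l : List ℕ) : (xsh X l).testBit j = xb (X >>> j) l := by
  induction l with
  | nil => simp [xsh, xb]
  | cons q l ih =>
    have e : xsh X (q :: l) = (X >>> q) ^^^ xsh X l := rfl
    rw [e, Nat.testBit_xor, ih, Nat.testBit_shiftRight]
    show _ = xor ((X >>> j).testBit q) (xb (X >>> j) l)
    rw [Nat.testBit_shiftRight, Nat.add_comm]

theorem xb_congr {e e' : ℕ} {l : List ℕ} (h : ∀ q ∈ l, e.testBit q = e'.testBit q) :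
    xb e l = xb e' l := by
  induction l with
  | nil => rfl
  | cons q l ih =>
    show xor (e.testBit q) (xb e l) = xor (e'.testBit q) (xb e' l)
    rw [h q (List.mem_cons_self ..), ih (fun q hq => h q (List.mem_cons_of_mem _ hq))]

/-- the parity condition at all the triples of a list of rows -/
def parL (T e : ℕ) : ℕ → List (List ℕ) → Prop
  | _, [] => True
  | t, l :: ls => xb e l = !T.testBit t ∧ parL T e (t + 1) ls

/-- the same for all fields of a packed list, `R` is the replicated one -/
def parX (T X R : ℕ) : ℕ → List (List ℕ) → Bool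
  | _, [] => true
  | t, l :: ls => cond (Nat.beq (Nat.land (xsh X l) R) (cond (T.testBit t) 0 R))
      (parX T X R (t + 1) ls) false

theorem parX_sound {T X W N : ℕ} (hW : 0 < W) {i : ℕ} (hi : i < N) (ls : List (List ℕ)) :
    ∀ t : ℕ, (∀ l ∈ ls, ∀ q ∈ l, q < W) → parX T X (rep W N) t ls = true →
      parL T (fld W X i) t ls := by
  induction ls with
  | nil => intro t _ _; trivial
  | cons l ls ih =>
    intro t hq h
    have e : parX T X (rep W N) t (l :: ls) =
      cond (Nat.beq (Nat.land (xsh X l) (rep W N)) (cond (T.testBit t) 0 (rep W N)))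
        (parX T X (rep W N) (t + 1) ls) false := rfl
    rw [e] at h
    have h1 : Nat.beq (Nat.land (xsh X l) (rep W N)) (cond (T.testBit t) 0 (rep W N)) = true := by
      by_contra hc
      rw [Bool.not_eq_true] at hc
      rw [hc] at h
      exact Bool.noConfusion h
    rw [h1, cond_true] at h
    refine ⟨?_, ih (t + 1) (fun l hl => hq l (List.mem_cons_of_mem _ hl)) h⟩
    have h2 : (xsh X l) &&& (rep W N) = cond (T.testBit t) 0 (rep W N) := Nat.eq_of_beq_eq_true h1
    have h3 := congrArg (fun v => Nat.testBit v (W * i)) h2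
    simp only [Nat.testBit_and, testBit_xsh] at h3
    have hr : (rep W N).testBit (W * i) = true := by
      have := testBit_mul_rep (W := W) (N := N) (M := 1) hW (Nat.one_lt_two_pow hW.ne') (W * i)
      rw [Nat.one_mul] at this
      rw [this]
      simp only [Nat.mul_mod_right, Nat.testBit_zero, Nat.one_mod, decide_true, Bool.and_true,
        decide_eq_true_eq]
      exact (Nat.mul_lt_mul_left hW).2 hi
    rw [hr, Bool.and_true] at h3
    have h4 : xb (fld W X i) l = xb (X >>> (W * i)) l := by
      refine xb_congr fun q hq' => ?_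
      rw [testBit_fld, Nat.testBit_shiftRight, decide_eq_true (hq l (List.mem_cons_self ..) q hq'),
        Bool.true_and]
    rw [h4, h3]
    cases T.testBit t
    · simpa using hr
    · simp

/-! ## numbers of blocks -/

/-- number of the bits below `n` -/
def pcb (e : ℕ) : ℕ → ℕ
  | 0 => 0
  | n + 1 => pcb e n + (e.testBit n).toNat

/-- the same for all fields of a packed list -/
def psum (X R : ℕ) (n : ℕ) : ℕ :=
  Nat.rec 0 (fun q s => Nat.add s (Nat.land (Nat.shiftRight X q) R)) n

theorem land_rep {W N X : ℕ} (hW : 0 < W) {q : ℕ} (hq : q < W) :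
    (X >>> q) &&& rep W N = pk W N (fun i => ((fld W X i).testBit q).toNat) := by
  refine Nat.eq_of_testBit_eq fun j => ?_
  have hr := testBit_mul_rep (W := W) (N := N) (M := 1) hW (Nat.one_lt_two_pow hW.ne') j
  rw [Nat.one_mul] at hr
  rw [Nat.testBit_and, hr, Nat.testBit_shiftRight]
  have ha : ∀ i < N, (fun i => ((fld W X i).testBit q).toNat) i < 2 ^ W := fun i _ =>
    lt_of_le_of_lt (Bool.toNat_le _) (Nat.one_lt_two_pow hW.ne')
  by_cases h : j < W * N
  · have h1 : j / W < N := Nat.div_lt_of_lt_mul h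
    have h2 := fld_pk (W := W) (N := N) ha h1
    have h3 : (pk W N (fun i => ((fld W X i).testBit q).toNat)).testBit j =
        ((fld W X (j / W)).testBit q).toNat.testBit (j % W) := by
      have h4 := congrArg (fun v => Nat.testBit v (j % W)) h2
      rw [← h4]
      show _ = (fld W (pk W N (fun i => ((fld W X i).testBit q).toNat)) (j / W)).testBit (j % W)
      rw [testBit_fld, decide_eq_true (Nat.mod_lt j hW), Bool.true_and, Nat.div_add_mod]
    rw [h3, decide_eq_true h, Bool.true_and, testBit_fld, decide_eq_true hq, Bool.true_and]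
    by_cases hj : j % W = 0
    · have e : j = W * (j / W) := by
        have := Nat.div_add_mod j W
        omega
      rw [hj, ← e, Nat.add_comm q j]
      cases X.testBit (j + q) <;> simp
    · have e1 : (1 : ℕ).testBit (j % W) = false := by
        rw [Nat.testBit_eq_false_of_lt]
        exact Nat.one_lt_two_pow hj
      have e2 : ∀ b : Bool, b.toNat.testBit (j % W) = false := by
        intro b
        cases b
        · simp
        · exact e1
      rw [e1, Bool.and_false, e2]
  · have h1 : pk W N (fun i => ((fld W X i).testBit q).toNat) < 2 ^ (W * N) := pk_lt ha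
    have h2 : pk W N (fun i => ((fld W X i).testBit q).toNat) < 2 ^ j :=
      lt_of_lt_of_le h1 (Nat.pow_le_pow_right (by norm_num) (by omega))
    rw [Nat.testBit_eq_false_of_lt h2, decide_eq_false h, Bool.false_and, Bool.and_false]

theorem psum_eq {W N X : ℕ} (hW : 0 < W) : ∀ {n : ℕ}, n ≤ W →
    psum X (rep W N) n = pk W N (fun i => pcb (fld W X i) n) := by
  intro n
  induction n with
  | zero =>
    intro _
    show 0 = pk W N (fun _ => 0)
    unfold pk
    simp
  | succ n ih =>
    intro hn
    have e : psum X (rep W N) (n + 1) = psum X (rep W N) n + ((X >>> n) &&& rep W N) := rfl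
    rw [e, ih (by omega), land_rep hW (by omega), pk_add]
    rfl

theorem pcb_le (e n : ℕ) : pcb e n ≤ n := by
  induction n with
  | zero => exact le_rfl
  | succ n ih =>
    show pcb e n + (e.testBit n).toNat ≤ n + 1
    have := Bool.toNat_le (e.testBit n)
    omega

/-! ## strictly increasing lists -/

/-- every field is less than the next one -/
def incr (W N X : ℕ) : Bool :=
  Nat.beq (Nat.land (Nat.sub (Nat.add (Nat.shiftRight X W) (hi W (N - 1)))
    (Nat.add (Nat.mod X (Nat.pow 2 (Nat.mul W (N - 1)))) (rep W (N - 1)))) (hi W (N - 1))) (hi W (N - 1))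

theorem incr_sound {W N : ℕ} {a : ℕ → ℕ} (hW : 0 < W) (ha : ∀ i < N, a i < 2 ^ (W - 1))
    (h : incr W N (pk W N a) = true) : ∀ i, i + 1 < N → a i < a (i + 1) := by
  rcases N with _ | n
  · intro i hi; omega
  have h2 : 2 ^ W = 2 ^ (W - 1) + 2 ^ (W - 1) := by
    obtain ⟨w, rfl⟩ := Nat.exists_eq_succ_of_ne_zero hW.ne'
    rw [Nat.succ_sub_one, pow_succ]; ring
  have hp := Nat.two_pow_pos (W - 1)
  have ha' : ∀ i < n + 1, a i < 2 ^ W := fun i hi => by have := ha i hi; omega
  have e1 : pk W (n + 1) a >>> W = pk W n (fun i => a (i + 1)) := by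
    rw [pk_cons, Nat.shiftRight_eq_div_pow, Nat.mul_add_div (Nat.two_pow_pos W),
      Nat.div_eq_of_lt (ha' 0 (by omega)), Nat.add_zero]
  have e2 : pk W (n + 1) a % 2 ^ (W * n) = pk W n a := by
    rw [pk_succ, Nat.add_mul_mod_self_right, Nat.mod_eq_of_lt (pk_lt (fun i hi => ha' i (by omega)))]
  have h3 := Nat.eq_of_beq_eq_true h
  have h4 : (pk W (n + 1) a >>> W + hi W n - (pk W (n + 1) a % 2 ^ (W * n) + rep W n)) &&& hi W n
      = hi W n := h3
  have hH : hi W n = pk W n (fun _ => 2 ^ (W - 1)) := mul_rep hW _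
  rw [e1, e2, hH, rep_eq hW, pk_add, pk_add, pk_sub (fun i hi => by
    have := ha i (by omega)
    show a i + 1 ≤ a (i + 1) + 2 ^ (W - 1)
    omega), pk_land (fun i hi => by
    have := ha (i + 1) (by omega)
    show a (i + 1) + 2 ^ (W - 1) - (a i + 1) < 2 ^ W
    omega) (fun i hi => by
    show 2 ^ (W - 1) < 2 ^ W
    omega)] at h4
  intro i hi
  have h5 := (pk_inj (fun i hi => lt_of_le_of_lt Nat.and_le_right (by
    show 2 ^ (W - 1) < 2 ^ W
    omega)) (fun i _ => by
    show 2 ^ (W - 1) < 2 ^ W
    omega)).1 h4 i (by omega)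
  by_contra hc
  have h6 : a (i + 1) + 2 ^ (W - 1) - (a i + 1) < 2 ^ (W - 1) := by
    have := ha i (by omega)
    omega
  have h7 : (a (i + 1) + 2 ^ (W - 1) - (a i + 1)) &&& 2 ^ (W - 1) = 2 ^ (W - 1) := h5
  have h8 := congrArg (fun v => Nat.testBit v (W - 1)) h7
  simp only [Nat.testBit_and, Nat.testBit_two_pow_self, Bool.and_true] at h8
  rw [Nat.testBit_lt_two_pow h6] at h8
  exact Bool.noConfusion h8

theorem strict_lt {a : ℕ → ℕ} {N : ℕ} (h : ∀ i, i + 1 < N → a i < a (i + 1)) :
    ∀ j, j < N → ∀ i, i < j → a i < a j := by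
  intro j
  induction j with
  | zero => intro _ i hi; omega
  | succ j ih =>
    intro hj i hi
    rcases Nat.lt_succ_iff_lt_or_eq.1 hi with h1 | rfl
    · exact (ih (by omega) i h1).trans (h j hj)
    · exact h i hj

/-! ## counting and completeness -/

/-- there are at most `K` numbers with the property `P` -/
def CountLe (P : ℕ → Prop) (K : ℕ) : Prop := ∀ F : Finset ℕ, (∀ e ∈ F, P e) → F.card ≤ K

theorem countLe_complete {P : ℕ → Prop} {N : ℕ} {a : ℕ → ℕ} (hc : CountLe P N)
    (ha : ∀ i < N, P (a i)) (hs : ∀ i, i + 1 < N → a i < a (i + 1)) {e : ℕ} (he : P e) :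
    ∃ i < N, a i = e := by
  classical
  by_contra hne
  push Not at hne
  have hinj : ∀ i < N, ∀ j < N, a i = a j → i = j := by
    intro i hi j hj hij
    rcases Nat.lt_trichotomy i j with h | h | h
    · exact absurd hij (strict_lt hs j hj i h).ne
    · exact h
    · exact absurd hij (strict_lt hs i hi j h).ne'
  have h1 : (Finset.image a (Finset.range N)).card = N := by
    rw [Finset.card_image_of_injOn, Finset.card_range]
    intro i hi j hj hij
    exact hinj i (Finset.mem_range.1 hi) j (Finset.mem_range.1 hj) hij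
  have h2 : e ∉ Finset.image a (Finset.range N) := by
    intro h
    obtain ⟨i, hi, h3⟩ := Finset.mem_image.1 h
    exact hne i (Finset.mem_range.1 hi) h3
  have h3 := hc (insert e (Finset.image a (Finset.range N))) (by
    intro x hx
    rcases Finset.mem_insert.1 hx with rfl | hx
    · exact he
    · obtain ⟨i, hi, rfl⟩ := Finset.mem_image.1 hx
      exact ha i (Finset.mem_range.1 hi))
  rw [Finset.card_insert_of_notMem h2, h1] at h3
  omega

/-! ## the entries of the tables -/

/-- for every triple of `{0, .., 10}` (colex) the positions of the blocks above it -/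
def abv : List (List ℕ) := [
  [0, 1, 5, 15, 35, 70, 126, 210],
  [0, 2, 6, 16, 36, 71, 127, 211],
  [0, 3, 7, 17, 37, 72, 128, 212],
  [0, 4, 8, 18, 38, 73, 129, 213],
  [1, 2, 9, 19, 39, 74, 130, 214],
  [1, 3, 10, 20, 40, 75, 131, 215],
  [1, 4, 11, 21, 41, 76, 132, 216],
  [2, 3, 12, 22, 42, 77, 133, 217],
  [2, 4, 13, 23, 43, 78, 134, 218],
  [3, 4, 14, 24, 44, 79, 135, 219],
  [5, 6, 9, 25, 45, 80, 136, 220],
  [5, 7, 10, 26, 46, 81, 137, 221],
  [5, 8, 11, 27, 47, 82, 138, 222],
  [6, 7, 12, 28, 48, 83, 139, 223],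
  [6, 8, 13, 29, 49, 84, 140, 224],
  [7, 8, 14, 30, 50, 85, 141, 225],
  [9, 10, 12, 31, 51, 86, 142, 226],
  [9, 11, 13, 32, 52, 87, 143, 227],
  [10, 11, 14, 33, 53, 88, 144, 228],
  [12, 13, 14, 34, 54, 89, 145, 229],
  [15, 16, 19, 25, 55, 90, 146, 230],
  [15, 17, 20, 26, 56, 91, 147, 231],
  [15, 18, 21, 27, 57, 92, 148, 232],
  [16, 17, 22, 28, 58, 93, 149, 233],
  [16, 18, 23, 29, 59, 94, 150, 234],
  [17, 18, 24, 30, 60, 95, 151, 235],
  [19, 20, 22, 31, 61, 96, 152, 236],
  [19, 21, 23, 32, 62, 97, 153, 237],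
  [20, 21, 24, 33, 63, 98, 154, 238],
  [22, 23, 24, 34, 64, 99, 155, 239],
  [25, 26, 28, 31, 65, 100, 156, 240],
  [25, 27, 29, 32, 66, 101, 157, 241],
  [26, 27, 30, 33, 67, 102, 158, 242],
  [28, 29, 30, 34, 68, 103, 159, 243],
  [31, 32, 33, 34, 69, 104, 160, 244],
  [35, 36, 39, 45, 55, 105, 161, 245],
  [35, 37, 40, 46, 56, 106, 162, 246],
  [35, 38, 41, 47, 57, 107, 163, 247],
  [36, 37, 42, 48, 58, 108, 164, 248],
  [36, 38, 43, 49, 59, 109, 165, 249],
  [37, 38, 44, 50, 60, 110, 166, 250],
  [39, 40, 42, 51, 61, 111, 167, 251],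
  [39, 41, 43, 52, 62, 112, 168, 252],
  [40, 41, 44, 53, 63, 113, 169, 253],
  [42, 43, 44, 54, 64, 114, 170, 254],
  [45, 46, 48, 51, 65, 115, 171, 255],
  [45, 47, 49, 52, 66, 116, 172, 256],
  [46, 47, 50, 53, 67, 117, 173, 257],
  [48, 49, 50, 54, 68, 118, 174, 258],
  [51, 52, 53, 54, 69, 119, 175, 259],
  [55, 56, 58, 61, 65, 120, 176, 260],
  [55, 57, 59, 62, 66, 121, 177, 261],
  [56, 57, 60, 63, 67, 122, 178, 262],
  [58, 59, 60, 64, 68, 123, 179, 263],
  [61, 62, 63, 64, 69, 124, 180, 264],
  [65, 66, 67, 68, 69, 125, 181, 265],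
  [70, 71, 74, 80, 90, 105, 182, 266],
  [70, 72, 75, 81, 91, 106, 183, 267],
  [70, 73, 76, 82, 92, 107, 184, 268],
  [71, 72, 77, 83, 93, 108, 185, 269],
  [71, 73, 78, 84, 94, 109, 186, 270],
  [72, 73, 79, 85, 95, 110, 187, 271],
  [74, 75, 77, 86, 96, 111, 188, 272],
  [74, 76, 78, 87, 97, 112, 189, 273],
  [75, 76, 79, 88, 98, 113, 190, 274],
  [77, 78, 79, 89, 99, 114, 191, 275],
  [80, 81, 83, 86, 100, 115, 192, 276],
  [80, 82, 84, 87, 101, 116, 193, 277],
  [81, 82, 85, 88, 102, 117, 194, 278],
  [83, 84, 85, 89, 103, 118, 195, 279],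
  [86, 87, 88, 89, 104, 119, 196, 280],
  [90, 91, 93, 96, 100, 120, 197, 281],
  [90, 92, 94, 97, 101, 121, 198, 282],
  [91, 92, 95, 98, 102, 122, 199, 283],
  [93, 94, 95, 99, 103, 123, 200, 284],
  [96, 97, 98, 99, 104, 124, 201, 285],
  [100, 101, 102, 103, 104, 125, 202, 286],
  [105, 106, 108, 111, 115, 120, 203, 287],
  [105, 107, 109, 112, 116, 121, 204, 288],
  [106, 107, 110, 113, 117, 122, 205, 289],
  [108, 109, 110, 114, 118, 123, 206, 290],
  [111, 112, 113, 114, 119, 124, 207, 291],
  [115, 116, 117, 118, 119, 125, 208, 292],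
  [120, 121, 122, 123, 124, 125, 209, 293],
  [126, 127, 130, 136, 146, 161, 182, 294],
  [126, 128, 131, 137, 147, 162, 183, 295],
  [126, 129, 132, 138, 148, 163, 184, 296],
  [127, 128, 133, 139, 149, 164, 185, 297],
  [127, 129, 134, 140, 150, 165, 186, 298],
  [128, 129, 135, 141, 151, 166, 187, 299],
  [130, 131, 133, 142, 152, 167, 188, 300],
  [130, 132, 134, 143, 153, 168, 189, 301],
  [131, 132, 135, 144, 154, 169, 190, 302],
  [133, 134, 135, 145, 155, 170, 191, 303],
  [136, 137, 139, 142, 156, 171, 192, 304],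
  [136, 138, 140, 143, 157, 172, 193, 305],
  [137, 138, 141, 144, 158, 173, 194, 306],
  [139, 140, 141, 145, 159, 174, 195, 307],
  [142, 143, 144, 145, 160, 175, 196, 308],
  [146, 147, 149, 152, 156, 176, 197, 309],
  [146, 148, 150, 153, 157, 177, 198, 310],
  [147, 148, 151, 154, 158, 178, 199, 311],
  [149, 150, 151, 155, 159, 179, 200, 312],
  [152, 153, 154, 155, 160, 180, 201, 313],
  [156, 157, 158, 159, 160, 181, 202, 314],
  [161, 162, 164, 167, 171, 176, 203, 315],
  [161, 163, 165, 168, 172, 177, 204, 316],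
  [162, 163, 166, 169, 173, 178, 205, 317],
  [164, 165, 166, 170, 174, 179, 206, 318],
  [167, 168, 169, 170, 175, 180, 207, 319],
  [171, 172, 173, 174, 175, 181, 208, 320],
  [176, 177, 178, 179, 180, 181, 209, 321],
  [182, 183, 185, 188, 192, 197, 203, 322],
  [182, 184, 186, 189, 193, 198, 204, 323],
  [183, 184, 187, 190, 194, 199, 205, 324],
  [185, 186, 187, 191, 195, 200, 206, 325],
  [188, 189, 190, 191, 196, 201, 207, 326],
  [192, 193, 194, 195, 196, 202, 208, 327],
  [197, 198, 199, 200, 201, 202, 209, 328],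
  [203, 204, 205, 206, 207, 208, 209, 329],
  [210, 211, 214, 220, 230, 245, 266, 294],
  [210, 212, 215, 221, 231, 246, 267, 295],
  [210, 213, 216, 222, 232, 247, 268, 296],
  [211, 212, 217, 223, 233, 248, 269, 297],
  [211, 213, 218, 224, 234, 249, 270, 298],
  [212, 213, 219, 225, 235, 250, 271, 299],
  [214, 215, 217, 226, 236, 251, 272, 300],
  [214, 216, 218, 227, 237, 252, 273, 301],
  [215, 216, 219, 228, 238, 253, 274, 302],
  [217, 218, 219, 229, 239, 254, 275, 303],
  [220, 221, 223, 226, 240, 255, 276, 304],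
  [220, 222, 224, 227, 241, 256, 277, 305],
  [221, 222, 225, 228, 242, 257, 278, 306],
  [223, 224, 225, 229, 243, 258, 279, 307],
  [226, 227, 228, 229, 244, 259, 280, 308],
  [230, 231, 233, 236, 240, 260, 281, 309],
  [230, 232, 234, 237, 241, 261, 282, 310],
  [231, 232, 235, 238, 242, 262, 283, 311],
  [233, 234, 235, 239, 243, 263, 284, 312],
  [236, 237, 238, 239, 244, 264, 285, 313],
  [240, 241, 242, 243, 244, 265, 286, 314],
  [245, 246, 248, 251, 255, 260, 287, 315],
  [245, 247, 249, 252, 256, 261, 288, 316],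
  [246, 247, 250, 253, 257, 262, 289, 317],
  [248, 249, 250, 254, 258, 263, 290, 318],
  [251, 252, 253, 254, 259, 264, 291, 319],
  [255, 256, 257, 258, 259, 265, 292, 320],
  [260, 261, 262, 263, 264, 265, 293, 321],
  [266, 267, 269, 272, 276, 281, 287, 322],
  [266, 268, 270, 273, 277, 282, 288, 323],
  [267, 268, 271, 274, 278, 283, 289, 324],
  [269, 270, 271, 275, 279, 284, 290, 325],
  [272, 273, 274, 275, 280, 285, 291, 326],
  [276, 277, 278, 279, 280, 286, 292, 327],
  [281, 282, 283, 284, 285, 286, 293, 328],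
  [287, 288, 289, 290, 291, 292, 293, 329],
  [294, 295, 297, 300, 304, 309, 315, 322],
  [294, 296, 298, 301, 305, 310, 316, 323],
  [295, 296, 299, 302, 306, 311, 317, 324],
  [297, 298, 299, 303, 307, 312, 318, 325],
  [300, 301, 302, 303, 308, 313, 319, 326],
  [304, 305, 306, 307, 308, 314, 320, 327],
  [309, 310, 311, 312, 313, 314, 321, 328],
  [315, 316, 317, 318, 319, 320, 321, 329],
  [322, 323, 324, 325, 326, 327, 328, 329]]

theorem abv_eq : abv = (L 11 3).map (fun m => above m 0 (L 11 4)) := by decide +kernel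

/-- `e` is the code of the blocks inside `{0, .., 10}` of an odd family on 12 points with sub-link `T` at
the point 11 and at most `c` such blocks -/
def Ent (T c e : ℕ) : Prop := e < 2 ^ 330 ∧ parL T e 0 abv ∧ pcb e 330 ≤ c

/-- the check of a packed list -/
def vlist (W N X T c : ℕ) : Bool :=
  force (rep W N) fun R =>
    cond (Nat.beq (Nat.land X (Nat.mul (2 ^ 330 - 1) R)) X)
      (cond (parX T X R 0 abv)
        (cond (incr W N X) (Nat.beq (geT W N (c + 1) (psum X R 330)) 0) false) false) false

theorem vlist_sound {W N X T c : ℕ} (hW : 330 < W) (hc : c < 2 ^ 330) (h : vlist W N X T c = true) :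
    X < 2 ^ (W * N) ∧ (∀ i < N, Ent T c (fld W X i)) ∧
      ∀ i, i + 1 < N → fld W X i < fld W X (i + 1) := by
  have hW0 : 0 < W := by omega
  unfold vlist at h
  rw [force_eq] at h
  have hM : (2 ^ 330 - 1 : ℕ) < 2 ^ W :=
    lt_of_lt_of_le (Nat.sub_lt (Nat.two_pow_pos 330) Nat.one_pos)
      (Nat.pow_le_pow_right (by norm_num) (by omega))
  by_cases c1 : Nat.beq (Nat.land X (Nat.mul (2 ^ 330 - 1) (rep W N))) X = true
  swap
  · rw [Bool.not_eq_true] at c1; rw [c1] at h; exact Bool.noConfusion h
  rw [c1, cond_true] at h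
  by_cases c2 : parX T X (rep W N) 0 abv = true
  swap
  · rw [Bool.not_eq_true] at c2; rw [c2] at h; exact Bool.noConfusion h
  rw [c2, cond_true] at h
  by_cases c3 : incr W N X = true
  swap
  · rw [Bool.not_eq_true] at c3; rw [c3] at h; exact Bool.noConfusion h
  rw [c3, cond_true] at h
  have c1' : X &&& (2 ^ 330 - 1) * rep W N = X := Nat.eq_of_beq_eq_true c1
  have hbit : ∀ j, X.testBit j = true → j < W * N ∧ j % W < 330 := by
    intro j hj
    rw [← c1', Nat.testBit_and, testBit_mul_rep hW0 hM, Bool.and_eq_true, Bool.and_eq_true,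
      decide_eq_true_eq] at hj
    refine ⟨hj.2.1, ?_⟩
    by_contra hc
    have h1 := hj.2.2
    rw [Nat.testBit_two_pow_sub_one, decide_eq_true_eq] at h1
    exact hc h1
  have hX : X < 2 ^ (W * N) := by
    refine Nat.lt_pow_two_of_testBit _ fun j hj => ?_
    by_contra hc
    rw [Bool.not_eq_false] at hc
    have := (hbit j hc).1
    omega
  have hf : ∀ i, fld W X i < 2 ^ 330 := by
    intro i
    refine Nat.lt_pow_two_of_testBit _ fun j hj => ?_
    by_contra hc
    rw [Bool.not_eq_false, testBit_fld, Bool.and_eq_true, decide_eq_true_eq] at hc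
    have := (hbit _ hc.2).2
    rw [Nat.mul_add_mod, Nat.mod_eq_of_lt hc.1] at this
    omega
  have hf' : ∀ i < N, fld W X i < 2 ^ (W - 1) := fun i _ =>
    lt_of_lt_of_le (hf i) (Nat.pow_le_pow_right (by norm_num) (by omega))
  have hq : ∀ l ∈ abv, ∀ q ∈ l, q < W := by
    have h1 : ∀ l ∈ abv, ∀ q ∈ l, q < 330 := by decide +kernel
    intro l hl q hq
    have := h1 l hl q hq
    omega
  have h330 : 330 < 2 ^ (W - 1) :=
    lt_of_lt_of_le Nat.lt_two_pow_self (Nat.pow_le_pow_right (by norm_num) (show 330 ≤ W - 1 by omega))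
  have h5 : ∀ i < N, pcb (fld W X i) 330 < c + 1 := by
    have h6 := Nat.eq_of_beq_eq_true h
    rw [psum_eq hW0 (by omega : 330 ≤ W)] at h6
    refine forall_lt hW0 ?_ (fun i _ => lt_of_le_of_lt (pcb_le _ _) h330) h6
    have h7 : (2 : ℕ) ^ 330 ≤ 2 ^ (W - 1) := Nat.pow_le_pow_right (by norm_num) (by omega)
    omega
  refine ⟨hX, fun i hi => ⟨hf i, parX_sound hW0 hi abv 0 hq c2, by have := h5 i hi; omega⟩, ?_⟩
  refine incr_sound hW0 hf' ?_
  rw [pk_fld hX]
  exact c3

/-- completeness of a checked list from a bound for the number of all solutions -/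
theorem vlist_complete {W N X T c : ℕ} (hW : 330 < W) (hc : c < 2 ^ 330)
    (h : vlist W N X T c = true) (hN : CountLe (Ent T c) N) {e : ℕ} (he : Ent T c e) :
    ∃ i < N, fld W X i = e := by
  obtain ⟨-, h1, h2⟩ := vlist_sound hW hc h
  exact countLe_complete hN h1 h2 he

end Pool.Agent.Helper69.TY
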